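import Pool.Agent.Helper21.CU.St

set_option autoImplicit false

namespace Pool.Agent.Helper6.CU

open Pool.Agent.Helper21.CU Finset

lemma norm_ec (t : ℝ) : ‖ec t‖ = 1 := by
  unfold ec
  rw [Complex.norm_exp]
  simp

lemma norm_W_le (k : ℤ) (s : ℕ) (n : ℤ) : ‖W k s n‖ ≤ ((R k s).card : ℝ) := by
  unfold W
  refine (norm_sum_le _ _).trans ?_
  simp [norm_ec]

lemma sp_pos (z : ℝ) (s : ℕ) : 1 ≤ sp z s := by
  classical
  unfold sp
  refine Nat.one_le_iff_ne_zero.2 (Finset.prod_ne_zero_iff.2 ?_)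
  intro p hp
  have hp' := (Finset.mem_filter.1 hp).1
  exact pow_ne_zero _ (Nat.prime_of_mem_primeFactors hp').ne_zero

lemma sp_smooth (z : ℝ) (s p : ℕ) (hp : p.Prime) (h : p ∣ sp z s) : (p : ℝ) ≤ z := by
  unfold sp at h
  obtain ⟨q, hq, hpq⟩ := (Prime.dvd_finset_prod_iff hp.prime _).1 h
  have h1 := hp.dvd_of_dvd_pow hpq
  have hq' := Finset.mem_filter.1 hq
  have h2 : p = q :=
    (Nat.prime_dvd_prime_iff_eq hp (Nat.prime_of_mem_primeFactors hq'.1)).1 h1
  rw [h2]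
  exact hq'.2

theorem hHOO (hHOA : StHOA) (hRNK : StRNK) (hEUL : StEUL) (hCNT : StCNT) : StHOO := by
  classical
  intro k hk
  obtain ⟨C1, hC1, x1, h1⟩ := hHOA k hk
  obtain ⟨C2, hC2, x2, h2⟩ := hRNK k hk (1 / 20) (by norm_num)
  obtain ⟨C3, hC3, h3⟩ := hEUL k hk
  obtain ⟨C4, hC4, h4⟩ := hCNT k hk
  obtain ⟨x3, hx3⟩ : ∃ x3 : ℕ, ∀ x : ℕ, x3 ≤ x → 20 ≤ Real.log (Real.log x) := by
    have ht : Filter.Tendsto (fun x : ℕ => Real.log (Real.log x)) Filter.atTop Filter.atTop :=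
      Real.tendsto_log_atTop.comp (Real.tendsto_log_atTop.comp tendsto_natCast_atTop_atTop)
    exact Filter.eventually_atTop.1 (ht.eventually_ge_atTop 20)
  let X0 : ℕ := max (max x1 x2) (max x3 3)
  have hX0 : 3 ≤ X0 := (le_max_right _ _).trans (le_max_right _ _)
  have hX0log : 0 ≤ Real.log X0 := Real.log_nonneg (by
    have : (3 : ℝ) ≤ X0 := by exact_mod_cast hX0
    linarith)
  have hpos4 : 0 ≤ C4 * Real.log X0 ^ (1 / 10 : ℝ) :=
    mul_nonneg hC4.le (Real.rpow_nonneg hX0log _)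
  refine ⟨C2 + C1 * C3 + C4 * Real.log X0 ^ (1 / 10 : ℝ), by positivity, ?_⟩
  intro x N h hx hN hh n hn
  have hxR : (3 : ℝ) ≤ x := by exact_mod_cast hx
  have hx0 : (0 : ℝ) < x := by linarith
  have hlog1 : 1 ≤ Real.log x := by
    rw [Real.le_log_iff_exp_le hx0]
    have := Real.exp_one_lt_d9
    linarith
  have hlog0 : 0 < Real.log x := by linarith
  have hh1 : 1 ≤ √(h : ℝ) := by
    rw [Real.one_le_sqrt]
    exact_mod_cast hh
  have hE0 : 0 ≤ Real.log x ^ (-(1 / 10) : ℝ) := Real.rpow_nonneg hlog0.le _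
  have hT0 : 0 ≤ √(h : ℝ) * x * Real.log x ^ (-(1 / 10) : ℝ) := by positivity
  rcases lt_or_ge x X0 with hlt | hge
  · -- small x
    have ha : ∑ s ∈ (Icc 1 x).filter (fun s : ℕ => s.Coprime N), ‖W k s (h * n s)‖ ≤ C4 * x := by
      refine le_trans ?_ (h4 x)
      refine (Finset.sum_le_sum fun s _ => norm_W_le k s _).trans ?_
      exact Finset.sum_le_sum_of_subset_of_nonneg (Finset.filter_subset _ _)
        (fun _ _ _ => Nat.cast_nonneg _)
    have hb : 1 ≤ Real.log X0 ^ (1 / 10 : ℝ) * Real.log x ^ (-(1 / 10) : ℝ) := by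
      rw [Real.rpow_neg hlog0.le, ← div_eq_mul_inv, le_div_iff₀ (Real.rpow_pos_of_pos hlog0 _),
        one_mul]
      refine Real.rpow_le_rpow hlog0.le ?_ (by norm_num)
      refine Real.log_le_log hx0 ?_
      exact_mod_cast hlt.le
    have hc : C4 * x ≤ C4 * Real.log X0 ^ (1 / 10 : ℝ) *
        (√(h : ℝ) * x * Real.log x ^ (-(1 / 10) : ℝ)) := by
      calc C4 * x = C4 * x * 1 * 1 := by ring
        _ ≤ C4 * x * (Real.log X0 ^ (1 / 10 : ℝ) * Real.log x ^ (-(1 / 10) : ℝ)) * √(h : ℝ) := by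
          gcongr
        _ = _ := by ring
    have hd : 0 ≤ (C2 + C1 * C3) * (√(h : ℝ) * x * Real.log x ^ (-(1 / 10) : ℝ)) := by positivity
    calc _ ≤ C4 * x := ha
      _ ≤ _ := hc
      _ ≤ (C2 + C1 * C3) * (√(h : ℝ) * x * Real.log x ^ (-(1 / 10) : ℝ)) +
          C4 * Real.log X0 ^ (1 / 10 : ℝ) *
            (√(h : ℝ) * x * Real.log x ^ (-(1 / 10) : ℝ)) := by linarith
      _ = _ := by ring
  · -- large x
    have hx1 : x1 ≤ x := ((le_max_left _ _).trans (le_max_left _ _)).trans hge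
    have hx2 : x2 ≤ x := ((le_max_right _ _).trans (le_max_left _ _)).trans hge
    have hx3' : x3 ≤ x := ((le_max_left _ _).trans (le_max_right _ _)).trans hge
    have hL := hx3 x hx3'
    have hL0 : 0 < Real.log (Real.log x) := by linarith
    have hLle : Real.log (Real.log x) ≤ Real.log x := (Real.log_le_sub_one_of_pos hlog0).trans
      (by linarith)
    let z : ℝ := zz (1 / 20) x
    have hzlog : Real.log z = 20 * Real.log x / Real.log (Real.log x) := by
      change Real.log (Real.exp _) = _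
      rw [Real.log_exp]
      field_simp
      try ring
    have hz20 : 20 ≤ Real.log z := by
      rw [hzlog, le_div_iff₀ hL0]
      nlinarith
    have hzle : Real.log z ≤ Real.log x := by
      rw [hzlog, div_le_iff₀ hL0]
      nlinarith
    have hz3 : 3 ≤ z := by
      have h5 : Real.log z + 1 ≤ z := by
        have h6 := Real.add_one_le_exp (Real.log z)
        have h7 : Real.exp (Real.log z) = z := by
          change Real.exp (Real.log (Real.exp _)) = Real.exp _
          rw [Real.log_exp]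
        rwa [h7] at h6
      linarith
    -- split
    have hsplit : ∑ s ∈ (Icc 1 x).filter (fun s : ℕ => s.Coprime N), ‖W k s (h * n s)‖ =
        ∑ s ∈ ((Icc 1 x).filter (fun s : ℕ => s.Coprime N)).filter
          (fun s : ℕ => (x : ℝ) ^ (1 / 4 : ℝ) < sp z s), ‖W k s (h * n s)‖ +
        ∑ s ∈ ((Icc 1 x).filter (fun s : ℕ => s.Coprime N)).filter
          (fun s : ℕ => ¬ (x : ℝ) ^ (1 / 4 : ℝ) < sp z s), ‖W k s (h * n s)‖ :=
      (Finset.sum_filter_add_sum_filter_not _ _ _).symm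
    have hA : ∑ s ∈ ((Icc 1 x).filter (fun s : ℕ => s.Coprime N)).filter
          (fun s : ℕ => (x : ℝ) ^ (1 / 4 : ℝ) < sp z s), ‖W k s (h * n s)‖ ≤
        C2 * (√(h : ℝ) * x * Real.log x ^ (-(1 / 10) : ℝ)) := by
      have ha : ∑ s ∈ ((Icc 1 x).filter (fun s : ℕ => s.Coprime N)).filter
          (fun s : ℕ => (x : ℝ) ^ (1 / 4 : ℝ) < sp z s), ‖W k s (h * n s)‖ ≤
          C2 * x / Real.log x := by
        refine le_trans ?_ (h2 x hx2)
        refine (Finset.sum_le_sum fun s _ => norm_W_le k s _).trans ?_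
        refine Finset.sum_le_sum_of_subset_of_nonneg ?_ (fun _ _ _ => Nat.cast_nonneg _)
        intro s hs
        simp only [Finset.mem_filter] at hs ⊢
        exact ⟨hs.1.1, hs.2⟩
      refine ha.trans ?_
      have hb : 1 / Real.log x ≤ Real.log x ^ (-(1 / 10) : ℝ) := by
        have h6 : 1 / Real.log x = Real.log x ^ (-1 : ℝ) := by
          rw [Real.rpow_neg_one, one_div]
        rw [h6]
        exact Real.rpow_le_rpow_of_exponent_le hlog1 (by norm_num)
      calc C2 * x / Real.log x = C2 * (1 * x * (1 / Real.log x)) := by ring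
        _ ≤ C2 * (√(h : ℝ) * x * Real.log x ^ (-(1 / 10) : ℝ)) := by gcongr
    have hB : ∑ s ∈ ((Icc 1 x).filter (fun s : ℕ => s.Coprime N)).filter
          (fun s : ℕ => ¬ (x : ℝ) ^ (1 / 4 : ℝ) < sp z s), ‖W k s (h * n s)‖ ≤
        C1 * C3 * (√(h : ℝ) * x * Real.log x ^ (-(1 / 10) : ℝ)) := by
      let A : ℕ := ⌊(x : ℝ) ^ (1 / 4 : ℝ)⌋₊
      let P : Finset ℕ := (Icc 1 A).filter
        (fun a : ℕ => ∀ p : ℕ, p.Prime → p ∣ a → (p : ℝ) ≤ z)
      have hmaps : ∀ s ∈ ((Icc 1 x).filter (fun s : ℕ => s.Coprime N)).filter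
          (fun s : ℕ => ¬ (x : ℝ) ^ (1 / 4 : ℝ) < sp z s), sp z s ∈ P := by
        intro s hs
        simp only [Finset.mem_filter, not_lt] at hs
        simp only [P, Finset.mem_filter, Finset.mem_Icc]
        exact ⟨⟨sp_pos z s, Nat.le_floor hs.2⟩, fun p hp hd => sp_smooth z s p hp hd⟩
      rw [← Finset.sum_fiberwise_of_maps_to hmaps]
      have hc : ∀ a ∈ P, ∑ s ∈ (((Icc 1 x).filter (fun s : ℕ => s.Coprime N)).filter
          (fun s : ℕ => ¬ (x : ℝ) ^ (1 / 4 : ℝ) < sp z s)).filter (fun s => sp z s = a),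
            ‖W k s (h * n s)‖ ≤
          C1 * √(h : ℝ) * x * Real.log x ^ (-(9 / 10) : ℝ) *
            (√((a : ℝ) / Nat.totient a) * √((R k a).card : ℝ) / a) := by
        intro a ha
        simp only [P, Finset.mem_filter, Finset.mem_Icc] at ha
        have ha4 : (a : ℝ) ≤ (x : ℝ) ^ (1 / 4 : ℝ) :=
          (Nat.le_floor_iff (Real.rpow_nonneg hx0.le _)).1 ha.1.2
        refine le_trans ?_ (h1 x hx1 N h hN hh n hn a ha.1.1 ha4)
        refine Finset.sum_le_sum_of_subset_of_nonneg ?_ (fun _ _ _ => norm_nonneg _)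
        intro s hs
        simp only [Finset.mem_filter] at hs ⊢
        exact ⟨hs.1.1.1, hs.1.1.2, hs.2⟩
      refine (Finset.sum_le_sum hc).trans ?_
      rw [← Finset.mul_sum]
      have hd : ∑ a ∈ P, √((a : ℝ) / Nat.totient a) * √((R k a).card : ℝ) / a ≤
          C3 * Real.log x ^ (4 / 5 : ℝ) := by
        refine le_trans ?_ ((h3 z hz3 A).trans ?_)
        · refine le_of_eq (Finset.sum_congr ?_ fun _ _ => rfl)
          ext a
          simp [P]
        · refine mul_le_mul_of_nonneg_left ?_ hC3.le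
          exact Real.rpow_le_rpow (by linarith) hzle (by norm_num)
      have he : Real.log x ^ (-(9 / 10) : ℝ) * Real.log x ^ (4 / 5 : ℝ) =
          Real.log x ^ (-(1 / 10) : ℝ) := by
        rw [← Real.rpow_add hlog0]
        norm_num
      calc C1 * √(h : ℝ) * x * Real.log x ^ (-(9 / 10) : ℝ) *
            ∑ a ∈ P, √((a : ℝ) / Nat.totient a) * √((R k a).card : ℝ) / a ≤
          C1 * √(h : ℝ) * x * Real.log x ^ (-(9 / 10) : ℝ) *
            (C3 * Real.log x ^ (4 / 5 : ℝ)) := by gcongr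
        _ = C1 * C3 * √(h : ℝ) * x *
            (Real.log x ^ (-(9 / 10) : ℝ) * Real.log x ^ (4 / 5 : ℝ)) := by ring
        _ = _ := by
          rw [he]
          ring
    rw [hsplit]
    have hC : 0 ≤ C4 * Real.log X0 ^ (1 / 10 : ℝ) *
        (√(h : ℝ) * x * Real.log x ^ (-(1 / 10) : ℝ)) := mul_nonneg hpos4 hT0
    calc _ ≤ C2 * (√(h : ℝ) * x * Real.log x ^ (-(1 / 10) : ℝ)) +
          C1 * C3 * (√(h : ℝ) * x * Real.log x ^ (-(1 / 10) : ℝ)) := add_le_add hA hB
      _ ≤ C2 * (√(h : ℝ) * x * Real.log x ^ (-(1 / 10) : ℝ)) +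
          C1 * C3 * (√(h : ℝ) * x * Real.log x ^ (-(1 / 10) : ℝ)) +
          C4 * Real.log X0 ^ (1 / 10 : ℝ) *
            (√(h : ℝ) * x * Real.log x ^ (-(1 / 10) : ℝ)) := by linarith
      _ = _ := by ring

end Pool.Agent.Helper6.CU
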